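import Pool.Agent.Helper6.CS.Goals1

/-!
# Packet CS-LHA (for helper6)
-/

namespace Pool.Agent.Helper25.CS

open Pool.Agent.Helper6.CS

set_option synthInstance.maxSize 1000000000
set_option synthInstance.maxHeartbeats 400000
set_option maxHeartbeats 4000000

theorem t_LHA (hLH0 : G_LH0) (hSH0 : G_SH0) (hSHS : G_SHS) (hLHS : G_LHS) : G_LHA := by
  intro M _ L b hb
  -- Shelah's lemma for all m
  have hSH : ∀ b : M, b + 2 ≤ L → ∀ m r, ∃ N, SH L b m r N := by
    intro b hb2
    refine ind ?_ ?_ ?_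
    · unfold SH Sys ColB
      infer_instance
    · intro r
      exact ⟨0, hSH0 M L b r⟩
    · intro m ih
      exact hSHS M L b m hb2 ih
  have hLH : ∀ b : M, b + 1 ≤ L → ∀ k r, ∃ N, LH L (b + 1) k r N := by
    refine ind ?_ ?_ ?_
    · unfold LH Sys ColB
      infer_instance
    · intro h k r
      rw [zero_add] at h ⊢
      exact ⟨k, (hLH0 M L k r).2 h⟩
    · intro b ih h
      have e2 : b + 1 + 1 = b + 2 := by rw [add_assoc, one_add_one_eq_two]
      rw [e2] at h ⊢
      have h1 : b + 1 ≤ L := le_trans (by rw [← e2]; exact le_add_of_nonneg_right zero_le_one) h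
      exact hLHS M L b h (hSH b h) (ih h1)
  rcases eq_or_ne b 0 with rfl | hb0
  · intro k r
    exact ⟨k, (hLH0 M L k r).1⟩
  · have h1 : 1 ≤ b := World.one_le_of_pos (lt_of_le_of_ne (World.zero_le' _) (Ne.symm hb0))
    obtain ⟨c, hc⟩ := World.exists_add _ _ h1
    have hc' : b = c + 1 := by rw [hc, add_comm]
    rw [hc'] at hb ⊢
    exact hLH c hb

end Pool.Agent.Helper25.CS
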